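import Pool.Agent.W477.GM.Stms

/-! GM-LIFT (MP_3ade05_lc): the canonical map of names. -/

set_option autoImplicit false
set_option maxHeartbeats 1000000

namespace Pool.Agent.W477.GM.W465Lift

open Pool.Agent.W477.GM

lemma pj_mono {q q' : QQ} (h : q ≤ q') : pj q ≤ pj q' := ⟨le_rfl, h.2⟩

lemma lab_iff (U : PP → Prop) (q : QQ) : Lab (fun u => U (pj u)) q ↔ Lab U (pj q) := by
  constructor
  · rintro ⟨u, hu, hq⟩
    exact ⟨pj u, hu, pj_mono hq⟩
  · rintro ⟨r, hr, hq⟩
    refine ⟨⟨q.c, r.len, r.bit, r.fin, r.lt, r.off, fun j hj => q.sup j fun h0 => hj ?_⟩, ?_, ?_⟩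
    · have h1 : r.len j ≤ q.len j := (hq.2 j).1
      rw [h0] at h1
      exact le_antisymm h1 zero_le
    · have h2 : pj ⟨q.c, r.len, r.bit, r.fin, r.lt, r.off, fun j hj => q.sup j fun h0 => hj
          (by
            have h1 : r.len j ≤ q.len j := (hq.2 j).1
            rw [h0] at h1
            exact le_antisymm h1 zero_le)⟩ = r :=
        Cn.ext' rfl (fun j => rfl) (fun j o _ => rfl)
      change U (pj _)
      rw [h2]
      exact hr
    · exact ⟨le_rfl, hq.2⟩

lemma proj (hc : CAx Str slen) (q : QQ) (r : PP) (hr : r ≤ pj q) : ∃ q', q' ≤ q ∧ pj q' = r := by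
  obtain ⟨n, hn⟩ : ∃ n : ℕ, ∀ j, r.len j ≠ 0 → j.2.1 ≤ n := by
    obtain ⟨n, hn⟩ := (r.fin.image fun j => j.2.1).bddAbove
    exact ⟨n, fun j hj => hn ⟨j, hj, rfl⟩⟩
  obtain ⟨d, hd, hdn⟩ := hc.cof q.c n
  refine ⟨⟨d, r.len, r.bit, r.fin, r.lt, r.off, fun j hj =>
    lt_of_le_of_lt (by exact_mod_cast hn j hj) hdn⟩, ⟨hd, hr.2⟩, ?_⟩
  exact Cn.ext' rfl (fun j => rfl) (fun j o _ => rfl)

lemma tr (hc : CAx Str slen) (A B : PP → Prop) (q : QQ) :
    (∀ q', q' ≤ q → A (pj q') → ∃ r, r ≤ q' ∧ B (pj r)) ↔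
      ∀ p', p' ≤ pj q → A p' → ∃ r, r ≤ p' ∧ B r := by
  constructor
  · intro h p' hp' hA
    obtain ⟨q', hq', rfl⟩ := proj hc q p' hp'
    obtain ⟨r, hr, hB⟩ := h q' hq' hA
    exact ⟨pj r, pj_mono hr, hB⟩
  · intro h q' hq' hA
    obtain ⟨r, hr, hB⟩ := h (pj q') (pj_mono hq') hA
    obtain ⟨r', hr', rfl⟩ := proj hc q' r hr
    exact ⟨r', hr', hB⟩

lemma lfeq (hc : CAx Str slen) : ∀ (x y : Nm PP) (q : QQ),
    feq (lift x) (lift y) q ↔ feq x y (pj q) := by
  intro x
  induction x with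
  | mk ι U x ih =>
    intro y q
    cases y with
    | mk κ W y =>
      simp only [lift, feq, lab_iff, ih]
      constructor
      · rintro ⟨h1, h2⟩
        refine ⟨fun i => ?_, fun j => ?_⟩
        · exact (tr hc (fun p => Lab (U i) p) (fun r => ∃ j, Lab (W j) r ∧ feq (x i) (y j) r) q).1
            (h1 i)
        · exact (tr hc (fun p => Lab (W j) p) (fun r => ∃ i, Lab (U i) r ∧ feq (x i) (y j) r) q).1
            (h2 j)
      · rintro ⟨h1, h2⟩
        refine ⟨fun i => ?_, fun j => ?_⟩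
        · exact (tr hc (fun p => Lab (U i) p) (fun r => ∃ j, Lab (W j) r ∧ feq (x i) (y j) r) q).2
            (h1 i)
        · exact (tr hc (fun p => Lab (W j) p) (fun r => ∃ i, Lab (U i) r ∧ feq (x i) (y j) r) q).2
            (h2 j)

lemma lfmem (hc : CAx Str slen) (x y : Nm PP) (q : QQ) :
    fmem (lift x) (lift y) q ↔ fmem x y (pj q) := by
  cases y with
  | mk κ W y =>
    simp only [lift, fmem, lab_iff, lfeq hc]
    have h := tr hc (fun _ => True) (fun r => ∃ j, Lab (W j) r ∧ feq x (y j) r) q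
    simp only [true_implies] at h
    exact h

lemma lrk : ∀ x : Nm PP, rk (lift x) = rk x := by
  intro x
  induction x with
  | mk ι U x ih => simp only [lift, rk, ih]

lemma lab_top (q : QQ) : Lab (fun u : QQ => pj u = ⊤) q := by
  refine ⟨cz q.c, ?_, ?_⟩
  · exact Cn.ext' rfl (fun j => rfl) (fun j o _ => rfl)
  · exact ⟨le_rfl, fun j => ⟨zero_le, fun o ho => absurd ho (not_lt.2 zero_le)⟩⟩

lemma lab_top' (q : QQ) : Lab (fun u : QQ => u = ⊤) q := ⟨⊤, rfl, le_top⟩

lemma lchk : ∀ (a : PSet.{0}) (q : QQ), feq (lift (chk a)) (chk a) q := by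
  intro a
  induction a with
  | mk α A ih =>
    intro q
    simp only [chk, lift, feq]
    exact ⟨fun i q' _ _ => ⟨q', le_rfl, i, lab_top' _, ih i q'⟩,
      fun i q' _ _ => ⟨q', le_rfl, i, lab_top _, ih i q'⟩⟩

lemma lpr {x y : Nm PP} {x' y' : Nm QQ} (hx : ∀ q, feq (lift x) x' q)
    (hy : ∀ q, feq (lift y) y' q) (q : QQ) : feq (lift (prN x y)) (prN x' y') q := by
  simp only [prN, lift, feq]
  have h : ∀ (b : Bool) q, feq (lift (cond b x y)) (cond b x' y') q := by
    intro b q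
    cases b
    · exact hy q
    · exact hx q
  exact ⟨fun i q' _ _ => ⟨q', le_rfl, i, lab_top' _, h i q'⟩,
    fun i q' _ _ => ⟨q', le_rfl, i, lab_top _, h i q'⟩⟩

lemma lfc (hc : CAx Str slen) : ∀ (φ : Fm) (v : ℕ → Nm PP) (q : QQ),
    Fc VN φ (fun i => lift (v i)) q ↔ Fc (HS SP) φ v (pj q) := by
  intro φ
  induction φ with
  | eq i j => intro v q; exact lfeq hc _ _ q
  | mem i j => intro v q; exact lfmem hc _ _ q
  | fls => intro v q; exact Iff.rfl
  | imp a b iha ihb =>
    intro v q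
    simp only [Fc]
    constructor
    · intro h p' hp' hA
      obtain ⟨q', hq', rfl⟩ := proj hc q p' hp'
      exact (ihb v q').1 (h q' hq' ((iha v q').2 hA))
    · intro h q' hq' hA
      exact (ihb v q').2 (h (pj q') (pj_mono hq') ((iha v q').1 hA))
  | all i a ih =>
    intro v q
    simp only [Fc]
    have hup : ∀ y : Nm PP, Function.update (fun j => lift (v j)) i (lift y) =
        fun j => lift (Function.update v i y j) := by
      intro y
      funext j
      by_cases h : j = i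
      · subst h
        simp
      · simp [Function.update_of_ne h]
    constructor
    · intro h y hy
      have h1 := h (lift y) ⟨y, hy, rfl⟩
      rw [hup] at h1
      exact (ih _ q).1 h1
    · rintro h _ ⟨y, hy, rfl⟩
      rw [hup]
      exact (ih _ q).2 (h y hy)

theorem lift_holds (h : P_EQ) (_h2 : P_FC) (_h3 : P_PR) (hc : P_CAX) : P_LIFT where
  feq := lfeq hc.2
  fmem := lfmem hc.2
  child := by
    intro x y q hm hy
    cases y with
    | mk κ W y =>
      simp only [lift, fmem] at hm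
      obtain ⟨r, hr, j, _, hj⟩ := hm q le_rfl
      simp only [HS] at hy
      exact ⟨r, hr, y j, hy.2.2 j, hj⟩
  proj := proj hc.2
  fc := lfc hc.2
  rk := lrk
  chk := lchk
  op := by
    intro x y q
    have hr : ∀ (x : Nm PP) q, feq (lift x) (lift x) q := fun x q => (h QQ).refl _ q
    exact lpr (lpr (hr x) (hr x)) (lpr (hr x) (hr y)) q

end Pool.Agent.W477.GM.W465Lift
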